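import Mathlib
import Pool.Agent.Lib.MP_98125f_al.JG.Main
import Pool.Agent.Lib.MP_98125f_al.JG.LIO

/-!
# MP_98125f_al: interval exchanges with translations in a space of dimension at most 3 over a field
generated by very well approximable, or by Baire-generic, numbers
-/

set_option autoImplicit false

namespace Pool.Agent.Results.MP_98125f_al.LiouvilleFields

open Filter

/-- For every `K`-subspace `Λ` of `ℝ` of dimension at most 3 the group of all interval exchange
transformations of `[0,1)` whose translations `t i` lie in `Λ` (the breakpoints `a i` are arbitrary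
real numbers) is amenable: it has a left-invariant finitely additive probability measure defined on
all its subsets. -/
def Good (K : Subfield ℝ) : Prop :=
  ∀ Λ : Submodule K ℝ, Module.rank K Λ ≤ 3 →
    ∀ H : Subgroup (Equiv.Perm (Set.Ico (0:ℝ) 1)),
      H = Subgroup.closure
        {f : Equiv.Perm (Set.Ico (0:ℝ) 1) |
          ∃ n : ℕ, ∃ a : Fin (n + 1) → ℝ, StrictMono a ∧ a 0 = 0 ∧ a (Fin.last n) = 1 ∧
            ∃ t : Fin n → ℝ, (∀ i, t i ∈ Λ) ∧
              ∀ i : Fin n, ∀ x : Set.Ico (0:ℝ) 1,
                a i.castSucc ≤ x.1 → x.1 < a i.succ → (f x).1 = x.1 + t i} →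
      ∃ m : Set H → ℝ,
        (∀ A : Set H, 0 ≤ m A) ∧
        m Set.univ = 1 ∧
        (∀ A B : Set H, Disjoint A B → m (A ∪ B) = m A + m B) ∧
        (∀ (h : H) (A : Set H), m ((fun x => h * x) '' A) = m A)

/-- The field of rational numbers is good.  If a countable subfield `K` of `ℝ` is good, then there is a
positive function `f` such that `K(x)` is good for all real numbers `x` for which
`0 < |x - p / q| < f q` has solutions `p ∈ ℤ` for infinitely many `q`.  For every `d` the field
`ℚ(g_1, ..., g_d)` is good for comeagre `g ∈ ℝ^d`. -/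
theorem result :
    Good ⊥ ∧
    (∀ K : Subfield ℝ, Countable K → Good K → ∃ f : ℕ → ℝ, (∀ q, 0 < f q) ∧ ∀ x : ℝ,
      {q : ℕ | ∃ p : ℤ, 0 < |x - (p : ℝ) / q| ∧ |x - (p : ℝ) / q| < f q}.Infinite →
      Good (Subfield.closure ((K : Set ℝ) ∪ {x}))) ∧
    ∀ d : ℕ, ∀ᶠ g in residual (Fin d → ℝ), Good (Subfield.closure (Set.range g)) := by
  have key : ∀ K : Subfield ℝ, Good K ↔ JG.G3 K := by
    intro K
    constructor
    · intro h
      exact JG.LIOM.g3_of_mean K fun Λ hΛ => h Λ hΛ _ rfl
    · intro h Λ hΛ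
      exact JG.MainM.fin' _ h Λ hΛ
  refine ⟨(key _).2 JG.MainM.ma, fun K hKc hK => ?_, fun d => ?_⟩
  · obtain ⟨f, hf, h⟩ := JG.LIOM.lio JG.MainM.fil JG.MainM.rsa JG.MainM.all' K hKc ((key K).1 hK)
    exact ⟨f, hf, fun x hx => (key _).2 (h x hx)⟩
  · filter_upwards [JG.MainM.generic d] with g hg
    exact (key _).2 hg

end Pool.Agent.Results.MP_98125f_al.LiouvilleFields
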