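import Mathlib
import Pool.Agent.Lib.MP_98125f_al.JG.MainH

/-!
# MP_98125f_al: interval exchanges with translations in a well approximable rational space of any
finite dimension, and the reduction of Q1 to badly approximable tuples
-/

set_option autoImplicit false

namespace Pool.Agent.Results.MP_98125f_al.LiouvilleSpaces

/-- `G` has a left-invariant finitely additive probability measure defined on all its subsets. -/
def HasMean (G : Type) [Group G] : Prop :=
  ∃ m : Set G → ℝ,
    (∀ A : Set G, 0 ≤ m A) ∧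
    m Set.univ = 1 ∧
    (∀ A B : Set G, Disjoint A B → m (A ∪ B) = m A + m B) ∧
    (∀ (g : G) (A : Set G), m ((fun x => g * x) '' A) = m A)

/-- The group of all interval exchange transformations of `[0,1)` whose translations `t i` lie in the
rational span of `a_0, ..., a_(d-1)`; the breakpoints `b i` are arbitrary real numbers. -/
def ietGroup {d : ℕ} (a : Fin d → ℝ) : Subgroup (Equiv.Perm (Set.Ico (0:ℝ) 1)) :=
  Subgroup.closure
    {g : Equiv.Perm (Set.Ico (0:ℝ) 1) |
      ∃ n : ℕ, ∃ b : Fin (n + 1) → ℝ, StrictMono b ∧ b 0 = 0 ∧ b (Fin.last n) = 1 ∧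
        ∃ t : Fin n → ℝ, (∀ i, t i ∈ Submodule.span ℚ (Set.range a)) ∧
          ∀ i : Fin n, ∀ x : Set.Ico (0:ℝ) 1,
            b i.castSucc ≤ x.1 → x.1 < b i.succ → (g x).1 = x.1 + t i}

/-- the maximum norm of an integer vector -/
def maxNorm {d : ℕ} (n : Fin d → ℤ) : ℕ := Finset.univ.sup fun i => (n i).natAbs

/-- `a` is `k` times `f`-approximable: for infinitely many `M` there are integer vectors
`n_0, ..., n_k` of norm at most `M` with `n_k · a ≠ 0` and `|n_(j+1) · a| < f(M) |n_j · a|` for all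
`j < k`. -/
def Approximable (f : ℕ → ℝ) (k : ℕ) {d : ℕ} (a : Fin d → ℝ) : Prop :=
  {M : ℕ | ∃ n : Fin (k + 1) → Fin d → ℤ, (∀ j, maxNorm (n j) ≤ M) ∧
    ∑ i, (n (Fin.last k) i : ℝ) * a i ≠ 0 ∧
    ∀ j : Fin k, |∑ i, (n j.succ i : ℝ) * a i| <
      f M * |∑ i, (n j.castSucc i : ℝ) * a i|}.Infinite

/-- There are positive functions `f d`, `d ∈ ℕ`, such that
(1) the group `ietGroup a` is amenable for every `d = 3 + k` and every `a ∈ ℝ^d` that is `k` times
`f d`-approximable;
(2) if `ietGroup e` is amenable for all `e ∈ ℝ^c`, then `ietGroup a` is amenable for every `k`,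
`d = c + k` and every `a ∈ ℝ^d` that is `k` times `f d`-approximable;
(3) if `ietGroup a` is amenable for all `d ≥ 4` and all rationally independent `a ∈ ℝ^d` that are not
once `f d`-approximable, then the group of all interval exchange transformations of `[0,1)` is
amenable (Q1). -/
theorem result :
    ∃ f : ℕ → ℕ → ℝ, (∀ d M, 0 < f d M) ∧
      (∀ (k : ℕ) (a : Fin (3 + k) → ℝ), Approximable (f (3 + k)) k a → HasMean (ietGroup a)) ∧
      (∀ c k : ℕ, (∀ e : Fin c → ℝ, HasMean (ietGroup e)) →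
        ∀ a : Fin (c + k) → ℝ, Approximable (f (c + k)) k a → HasMean (ietGroup a)) ∧
      ((∀ d : ℕ, 4 ≤ d → ∀ a : Fin d → ℝ, LinearIndependent ℚ a → ¬ Approximable (f d) 1 a →
          HasMean (ietGroup a)) →
        ∀ H : Subgroup (Equiv.Perm (Set.Ico (0:ℝ) 1)),
          H = Subgroup.closure
            {g : Equiv.Perm (Set.Ico (0:ℝ) 1) |
              ∃ n : ℕ, ∃ b : Fin (n + 1) → ℝ, StrictMono b ∧ b 0 = 0 ∧ b (Fin.last n) = 1 ∧
                ∃ t : Fin n → ℝ, ∀ i : Fin n, ∀ x : Set.Ico (0:ℝ) 1,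
                  b i.castSucc ≤ x.1 → x.1 < b i.succ → (g x).1 = x.1 + t i} →
          ∃ m : Set H → ℝ,
            (∀ A : Set H, 0 ≤ m A) ∧
            m Set.univ = 1 ∧
            (∀ A B : Set H, Disjoint A B → m (A ∪ B) = m A + m B) ∧
            (∀ (g : H) (A : Set H), m ((fun x => g * x) '' A) = m A)) := by
  have key : ∀ {d : ℕ} (a : Fin d → ℝ), HasMean (ietGroup a) ↔
      Pool.Agent.Lib.MP98125f.Amen (Pool.Agent.Lib.MP98125f.PTg
        (Submodule.span ℚ (Set.range a)).toAddSubgroup (Set.Ico (0 : ℝ) 1)) := by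
    intro d a
    constructor
    · intro h
      exact JG.I2VM.good _ (JG.M2FM.specM2F _ h)
    · intro h
      exact (Pool.Agent.Lib.MP98125f.amen_iet h).exists_mean
  obtain ⟨f, hf, h⟩ := JG.MainHM.funs
  refine ⟨f, hf, fun k a ha => (key a).2 (h 3 k JG.MainGM.pg3 a ha), fun c k hc a ha =>
    (key a).2 (h c k (fun e => (key e).1 (hc e)) a ha), fun hfin H hH => ?_⟩
  have h1 := JG.MainHM.reduction h (fun d hd a hli ha => (key a).1 (hfin d hd a hli ha))
  have h2 : Pool.Agent.Lib.MP98125f.GoodV ⊤ := h1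
  have h3 := Pool.Agent.Lib.MP98125f.amen_iet h2
  have h4 : H = Subgroup.closure (Pool.Agent.Lib.MP98125f.IetSet ⊤) := by
    rw [hH]
    congr 1
    ext g
    constructor
    · rintro ⟨n, b, hb, h0, h1, t, ht⟩
      exact ⟨n, b, hb, h0, h1, t, fun _ => Submodule.mem_top, ht⟩
    · rintro ⟨n, b, hb, h0, h1, t, _, ht⟩
      exact ⟨n, b, hb, h0, h1, t, ht⟩
  subst h4
  exact h3.exists_mean

end Pool.Agent.Results.MP_98125f_al.LiouvilleSpaces
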