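import Mathlib
import Pool.Agent.Lib.MP_98125f_al.JG.Main
import Pool.Agent.Lib.MP_98125f_al.JG.TWO

/-!
# MP_98125f_al: the real field is the sum of two subfields over which all spaces of dimension at most 3
give amenable groups of interval exchanges
-/

set_option autoImplicit false

namespace Pool.Agent.Results.MP_98125f_al.TwoFields

/-- For every `K`-subspace `Λ` of `ℝ` of dimension at most 3 the group of all interval exchange
transformations of `[0,1)` whose translations `t i` lie in `Λ` (the breakpoints `a i` are arbitrary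
real numbers) is amenable: it has a left-invariant finitely additive probability measure defined on
all its subsets. -/
def Good (K : Subfield ℝ) : Prop :=
  ∀ Λ : Submodule K ℝ, Module.rank K Λ ≤ 3 →
    ∀ H : Subgroup (Equiv.Perm (Set.Ico (0:ℝ) 1)),
      H = Subgroup.closure
        {f : Equiv.Perm (Set.Ico (0:ℝ) 1) |
          ∃ n : ℕ, ∃ a : Fin (n + 1) → ℝ, StrictMono a ∧ a 0 = 0 ∧ a (Fin.last n) = 1 ∧
            ∃ t : Fin n → ℝ, (∀ i, t i ∈ Λ) ∧
              ∀ i : Fin n, ∀ x : Set.Ico (0:ℝ) 1,
                a i.castSucc ≤ x.1 → x.1 < a i.succ → (f x).1 = x.1 + t i} →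
      ∃ m : Set H → ℝ,
        (∀ A : Set H, 0 ≤ m A) ∧
        m Set.univ = 1 ∧
        (∀ A B : Set H, Disjoint A B → m (A ∪ B) = m A + m B) ∧
        (∀ (h : H) (A : Set H), m ((fun x => h * x) '' A) = m A)

/-- There are continuous maps `f`, `g` from the Cantor set to `ℝ`, each with values which are
algebraically independent over `ℚ`, such that the subfields `K`, `L` of `ℝ` generated by the values of
`f` and by the values of `g` are good and every real number is the sum of an element of `K` and an
element of `L`. -/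
theorem result :
    ∃ f g : (ℕ → Bool) → ℝ, Continuous f ∧ Continuous g ∧
      AlgebraicIndependent ℚ f ∧ AlgebraicIndependent ℚ g ∧
      Good (Subfield.closure (Set.range f)) ∧ Good (Subfield.closure (Set.range g)) ∧
      ∀ t : ℝ, ∃ x ∈ Subfield.closure (Set.range f), ∃ y ∈ Subfield.closure (Set.range g),
        t = x + y := by
  obtain ⟨f, g, hf, hg, h1, h2, h3, h4, h5⟩ := JG.TWOM.sum (fun d => JG.MainM.rsd d ⊥ JG.MainM.countable_bot JG.MainM.ma)
  refine ⟨f, g, hf, hg, h1, h2, fun Λ hΛ => JG.MainM.fin' _ h3 Λ hΛ,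
    fun Λ hΛ => JG.MainM.fin' _ h4 Λ hΛ, fun t => ?_⟩
  obtain ⟨x, hx⟩ := h5 (Int.fract t) (Int.fract_nonneg t) (Int.fract_lt_one t).le
  refine ⟨(⌊t⌋ : ℝ) + f x, Subfield.add_mem _ (intCast_mem _ _)
    (Subfield.subset_closure ⟨x, rfl⟩), g x, Subfield.subset_closure ⟨x, rfl⟩, ?_⟩
  have h6 := Int.floor_add_fract t
  rw [hx] at h6
  linarith

end Pool.Agent.Results.MP_98125f_al.TwoFields
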