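import Mathlib
import Pool.Agent.Lib.MP_98125f_al.JG.MainE

/-!
# MP_98125f_al: the amenability of the group of interval exchanges is a statement about permutations
of finite intervals
-/

set_option autoImplicit false

namespace Pool.Agent.Results.MP_98125f_al.UniformFinite

/-- The following are equivalent.
(1) The group of all interval exchange transformations of `[0,1)` is amenable (Q1).
(2) For all `k, N, m` there is `R` such that for every `q` and every `k`-tuple `g` of permutations of
`{0, ..., q-1}`, each of which is a translation on each piece of a partition into at most `N + 1`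
intervals (`x` and `y` are in the same piece if no element of `B`, `|B| ≤ N`, lies in `(x, y]`), there
is a nonempty set `F` of at most `R` permutations of `{0, ..., q-1}` such that for every `j` at most
`|F| / m` elements `z` of `F` have `g_j z` outside `F`. -/
theorem result :
    (∀ H : Subgroup (Equiv.Perm (Set.Ico (0:ℝ) 1)),
      H = Subgroup.closure
        {f : Equiv.Perm (Set.Ico (0:ℝ) 1) |
          ∃ n : ℕ, ∃ a : Fin (n + 1) → ℝ, StrictMono a ∧ a 0 = 0 ∧ a (Fin.last n) = 1 ∧
            ∃ t : Fin n → ℝ, ∀ i : Fin n, ∀ x : Set.Ico (0:ℝ) 1,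
              a i.castSucc ≤ x.1 → x.1 < a i.succ → (f x).1 = x.1 + t i} →
      ∃ m : Set H → ℝ,
        (∀ A : Set H, 0 ≤ m A) ∧
        m Set.univ = 1 ∧
        (∀ A B : Set H, Disjoint A B → m (A ∪ B) = m A + m B) ∧
        (∀ (g : H) (A : Set H), m ((fun x => g * x) '' A) = m A)) ↔
    (∀ k N m : ℕ, ∃ R : ℕ, ∀ (q : ℕ) (g : Fin k → Equiv.Perm (Fin q)),
      (∀ j, ∃ B : Finset (Fin q), B.card ≤ N ∧ ∀ x y : Fin q, x ≤ y →
        (∀ b ∈ B, ¬ (x < b ∧ b ≤ y)) →
        ((g j y : ℕ) : ℤ) - ((y : ℕ) : ℤ) = ((g j x : ℕ) : ℤ) - ((x : ℕ) : ℤ)) →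
      ∃ F : Finset (Equiv.Perm (Fin q)), F.Nonempty ∧ F.card ≤ R ∧
        ∀ j, m * Set.ncard {z | z ∈ F ∧ g j * z ∉ F} ≤ F.card) :=
  JG.MainEM.eqv

end Pool.Agent.Results.MP_98125f_al.UniformFinite
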